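import Mathlib

/-!
# A `p`-stable `p`-family without property (S)

Let `k` be an infinite perfect field of characteristic `p` and `R = k[x, y]`.  For infinitely many
points `P_i = (a_i, 0)` of the line `y = 0` let `𝔟_e` be the ideal of the multiples `f` of `y` whose
multiplicity at each `P_i` is at least `(p + 1) p ^ (e - i - 1)`.  This `p`-family is `p`-stable, but
every Cartier map compatible with it maps `R` into `(y)`.
-/

namespace Pool.Agent.Results.MP_30687b_ag.StableWithoutS

/-! ### The notions of the problem -/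

/-- `𝒞^R_d = Hom_R(F^d_* R, R)`: the additive maps `φ : R → R` with `φ (r ^ (p ^ d) * s) = r * φ s`
(the `R`-module `F^d_* R` is `R` with `r • s = r ^ (p ^ d) * s`). -/
structure CartierMap (p d : ℕ) (R : Type*) [CommRing R] where
  toFun : R →+ R
  map_pow_mul : ∀ r s, toFun (r ^ p ^ d * s) = r * toFun s

/-- `(𝔟_e)_{e ≥ 0}` is a `p`-family: `𝔟_e^{[p]} ⊆ 𝔟_{e+1}`. -/
def IsPFamily (p : ℕ) {R : Type*} [CommRing R] (b : ℕ → Ideal R) : Prop :=
  ∀ e, Ideal.span ((fun g : R => g ^ p) '' (b e : Set R)) ≤ b (e + 1)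

/-- The `e`-th member of the `p`-stabilization, as a set:
`{r | r ^ (p ^ f) ∈ 𝔟_{e+f} for all sufficiently large f}`. -/
def stabilization (p : ℕ) {R : Type*} [CommRing R] (b : ℕ → Ideal R) (e : ℕ) : Set R :=
  {r | ∃ f₀, ∀ f, f₀ ≤ f → r ^ p ^ f ∈ b (e + f)}

/-- `𝔟_•` is `p`-stable: it equals its `p`-stabilization. -/
def IsPStable (p : ℕ) {R : Type*} [CommRing R] (b : ℕ → Ideal R) : Prop :=
  ∀ e, stabilization p b e = (b e : Set R)

/-- Property (S): for some `d ≥ 1` there is a surjective `φ ∈ 𝒞^R_d` with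
`φ(F^d_* 𝔟_{e+d}) ⊆ 𝔟_e` for all `e ≥ 0`. -/
def PropertyS (p : ℕ) {R : Type*} [CommRing R] (b : ℕ → Ideal R) : Prop :=
  ∃ d, 1 ≤ d ∧ ∃ φ : CartierMap p d R, Function.Surjective φ.toFun ∧
    ∀ e, ∀ r ∈ b (e + d), φ.toFun r ∈ b e

/-- `R` is strongly `F`-regular: for every `c` in no minimal prime there are `e ≥ 1` and
`ψ ∈ 𝒞^R_e` with `ψ c = 1`. -/
def StronglyFRegular (p : ℕ) (R : Type*) [CommRing R] : Prop :=
  ∀ c : R, (∀ P ∈ minimalPrimes R, c ∉ P) →
    ∃ e, 1 ≤ e ∧ ∃ ψ : CartierMap p e R, ψ.toFun c = 1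

open MvPolynomial

section Ring

variable {p : ℕ} [Fact p.Prime] {k : Type*} [Field k] [CharP k p] [PerfectRing k p]

/-- `k[x_s : s ∈ σ]` is `F`-finite. -/
lemma frobenius_finite {σ : Type*} [Finite σ] :
    (frobenius (MvPolynomial σ k) p).Finite := by
  apply RingHom.IsIntegral.to_finite
  · intro f
    refine ⟨Polynomial.X ^ p - Polynomial.C f, ?_, ?_⟩
    · exact Polynomial.monic_X_pow_sub_C _ (Fact.out : p.Prime).ne_zero
    · rw [Polynomial.eval₂_sub, Polynomial.eval₂_pow, Polynomial.eval₂_X, Polynomial.eval₂_C,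
        frobenius_def, sub_self]
  · apply RingHom.FiniteType.of_comp_finiteType (f := (C : k →+* MvPolynomial σ k))
    have h1 : (frobenius (MvPolynomial σ k) p).comp (C : k →+* MvPolynomial σ k) =
        (C : k →+* MvPolynomial σ k).comp (frobenius k p) := by
      ext a
      simp [frobenius_def]
    rw [h1]
    apply RingHom.FiniteType.comp
    · have : Algebra.FiniteType k (MvPolynomial σ k) := inferInstance
      exact RingHom.finiteType_algebraMap.2 this
    · exact RingHom.FiniteType.of_surjective _ (PerfectRing.bijective_frobenius (R := k) (p := p)).2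

/-- The dual basis element: `x ^ m ↦ x ^ (m / q)` if `m ≡ α` modulo `q`, else `0`, taking `q`-th
roots of the coefficients. -/
noncomputable def dualMap (p : ℕ) [Fact p.Prime] (k : Type*) [Field k] [CharP k p] [PerfectRing k p]
    (e : ℕ) {σ : Type*} (α : σ →₀ ℕ) : MvPolynomial σ k →+ MvPolynomial σ k := by
  classical
  exact (Finsupp.liftAddHom fun m : σ →₀ ℕ =>
    if ∃ u : σ →₀ ℕ, m = α + p ^ e • u then
      (monomial (m.mapRange (fun t => t / p ^ e) (Nat.zero_div _)) :
        k →ₗ[k] MvPolynomial σ k).toAddMonoidHom.comp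
        (iterateFrobeniusEquiv k p e).symm.toAddMonoidHom
    else 0).comp (basisMonomials σ k).repr.toLinearMap.toAddMonoidHom

lemma dualMap_monomial (e : ℕ) {σ : Type*} (α : σ →₀ ℕ) (hα : ∀ i, α i < p ^ e) (u : σ →₀ ℕ)
    (c : k) : dualMap p k e α (monomial (α + p ^ e • u) c) =
      monomial u ((iterateFrobeniusEquiv k p e).symm c) := by
  classical
  have h1 : (basisMonomials σ k).repr (monomial (α + p ^ e • u) c) =
      Finsupp.single (α + p ^ e • u) c := by
    have : (monomial (α + p ^ e • u) c : MvPolynomial σ k) =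
        c • (basisMonomials σ k (α + p ^ e • u)) := by
      rw [coe_basisMonomials, smul_monomial, smul_eq_mul, mul_one]
    rw [this, map_smul, Module.Basis.repr_self, Finsupp.smul_single, smul_eq_mul, mul_one]
  rw [dualMap]
  show Finsupp.liftAddHom _ ((basisMonomials σ k).repr (monomial (α + p ^ e • u) c)) = _
  have hu : (α + p ^ e • u).mapRange (fun t => t / p ^ e) (Nat.zero_div _) = u := by
    ext i
    rw [Finsupp.mapRange_apply, Finsupp.add_apply, Finsupp.smul_apply, smul_eq_mul,
      Nat.add_mul_div_left _ _ (pow_pos (Fact.out : p.Prime).pos e), Nat.div_eq_of_lt (hα i),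
      zero_add]
  rw [h1, Finsupp.liftAddHom_apply_single, if_pos ⟨u, rfl⟩]
  show monomial _ _ = _
  rw [hu]
  rfl

lemma dualMap_monomial_of_not (e : ℕ) {σ : Type*} (α m : σ →₀ ℕ)
    (h : ¬ ∃ u : σ →₀ ℕ, m = α + p ^ e • u) (c : k) :
    dualMap p k e α (monomial m c) = 0 := by
  classical
  have h1 : (basisMonomials σ k).repr (monomial m c) = Finsupp.single m c := by
    have : (monomial m c : MvPolynomial σ k) = c • (basisMonomials σ k m) := by
      rw [coe_basisMonomials, smul_monomial, smul_eq_mul, mul_one]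
    rw [this, map_smul, Module.Basis.repr_self, Finsupp.smul_single, smul_eq_mul, mul_one]
  rw [dualMap]
  show Finsupp.liftAddHom _ ((basisMonomials σ k).repr (monomial m c)) = _
  rw [h1, Finsupp.liftAddHom_apply_single, if_neg h]
  rfl

lemma dualMap_pow_mul (e : ℕ) {σ : Type*} (α : σ →₀ ℕ) (hα : ∀ i, α i < p ^ e)
    (r s : MvPolynomial σ k) :
    dualMap p k e α (r ^ p ^ e * s) = r * dualMap p k e α s := by
  classical
  induction r using MvPolynomial.induction_on' with
  | monomial v c =>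
    induction s using MvPolynomial.induction_on' with
    | monomial m c' =>
      rw [monomial_pow, monomial_mul]
      by_cases h : ∃ u : σ →₀ ℕ, m = α + p ^ e • u
      · obtain ⟨u, rfl⟩ := h
        have h1 : p ^ e • v + (α + p ^ e • u) = α + p ^ e • (v + u) := by
          rw [smul_add]
          abel
        rw [h1, dualMap_monomial e α hα, dualMap_monomial e α hα, monomial_mul, map_mul]
        congr 2
        rw [RingEquiv.symm_apply_eq, iterateFrobeniusEquiv_def]
      · rw [dualMap_monomial_of_not e α m h, mul_zero]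
        apply dualMap_monomial_of_not
        rintro ⟨u, hu⟩
        apply h
        have h2 : ∀ i, p ^ e * v i + m i = α i + p ^ e * u i := by
          intro i
          have := DFunLike.congr_fun hu i
          simpa using this
        refine ⟨u - v, ?_⟩
        ext i
        rw [Finsupp.add_apply, Finsupp.smul_apply, Finsupp.tsub_apply, smul_eq_mul, Nat.mul_sub]
        have h3 := h2 i
        have h4 : v i ≤ u i := by
          by_contra h5
          have h6 : u i + 1 ≤ v i := by omega
          have h7 : p ^ e * (u i + 1) ≤ p ^ e * v i := Nat.mul_le_mul_left _ h6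
          have h8 := hα i
          rw [mul_add, mul_one] at h7
          omega
        have h5 : p ^ e * v i ≤ p ^ e * u i := Nat.mul_le_mul_left _ h4
        omega
    | add s t hs ht => rw [mul_add, map_add, hs, ht, map_add, mul_add]
  | add r t hr ht =>
    have : ExpChar (MvPolynomial σ k) p := ExpChar.prime Fact.out
    rw [add_pow_expChar_pow, add_mul, map_add, hr, ht, add_mul]

lemma stronglyFRegular {σ : Type*} [Finite σ] : StronglyFRegular p (MvPolynomial σ k) := by
  classical
  intro c hc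
  have hc0 : c ≠ 0 := by
    have := hc ⊥ (by rw [IsDomain.minimalPrimes_eq_singleton_bot]; rfl)
    simpa using this
  obtain ⟨m₀, hm₀⟩ := support_nonempty.2 hc0
  have hpp : p.Prime := Fact.out
  let e := c.totalDegree + 1
  have hbound : ∀ m ∈ c.support, ∀ i, m i < p ^ e := by
    intro m hm i
    have h1 : m i ≤ m.degree := Finsupp.le_degree i m
    have h2 : m.degree ≤ c.totalDegree := le_totalDegree hm
    have h3 : e < p ^ e := Nat.lt_pow_self hpp.one_lt
    omega
  have hval : dualMap p k e m₀ c = C ((iterateFrobeniusEquiv k p e).symm (coeff m₀ c)) := by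
    conv_lhs => rw [c.as_sum]
    rw [map_sum, Finset.sum_eq_single m₀]
    · have h1 := dualMap_monomial (p := p) (k := k) e m₀ (hbound m₀ hm₀) 0 (coeff m₀ c)
      rw [smul_zero, add_zero] at h1
      exact h1
    · intro m hm hne
      apply dualMap_monomial_of_not
      rintro ⟨u, hu⟩
      apply hne
      have hu0 : u = 0 := by
        ext i
        have h2 := DFunLike.congr_fun hu i
        rw [Finsupp.add_apply, Finsupp.smul_apply, smul_eq_mul] at h2
        have h3 := hbound m hm i
        by_contra h4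
        have h5 : 1 ≤ u i := Nat.one_le_iff_ne_zero.2 h4
        have h6 : p ^ e * 1 ≤ p ^ e * u i := Nat.mul_le_mul_left _ h5
        omega
      rw [hu, hu0, smul_zero, add_zero]
    · intro h
      exact absurd hm₀ h
  set w : k := (iterateFrobeniusEquiv k p e).symm (coeff m₀ c) with hw
  have hw0 : w ≠ 0 := by
    rw [hw, Ne, EmbeddingLike.map_eq_zero_iff]
    exact mem_support_iff.1 hm₀
  refine ⟨e, by omega, ⟨(AddMonoidHom.mulLeft (C w⁻¹)).comp (dualMap p k e m₀), ?_⟩, ?_⟩
  · intro r s
    show C w⁻¹ * dualMap p k e m₀ (r ^ p ^ e * s) = r * (C w⁻¹ * dualMap p k e m₀ s)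
    rw [dualMap_pow_mul e m₀ (hbound m₀ hm₀)]
    ring
  · show C w⁻¹ * dualMap p k e m₀ c = 1
    rw [hval, ← C_mul, inv_mul_cancel₀ hw0, C_1]

end Ring

section Family

variable {p : ℕ} [Fact p.Prime] {k : Type*} [Field k] [CharP k p]

/-- The substitution `x ↦ a + T x`, `y ↦ T y`; the multiplicity of `f` at `(a, 0)` is the order in
`T` of its value. -/
noncomputable def blow (a : k) : MvPolynomial (Fin 2) k →ₐ[k] Polynomial (MvPolynomial (Fin 2) k) :=
  aeval ![Polynomial.C (C a) + Polynomial.X * Polynomial.C (X 0), Polynomial.X * Polynomial.C (X 1)]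

lemma blow_X0 (a : k) : blow a (X 0) = Polynomial.C (C a) + Polynomial.X * Polynomial.C (X 0) := by
  rw [blow, aeval_X]
  rfl

lemma blow_X1 (a : k) : blow a (X 1) = Polynomial.X * Polynomial.C (X 1) := by
  rw [blow, aeval_X]
  rfl

lemma blow_C (a c : k) : blow a (C c) = Polynomial.C (C c) := (blow a).commutes c

/-- The `p`-family: `f ∈ 𝔟_e` iff `y ∣ f` and the multiplicity of `f` at each `(a_i, 0)` is at
least `(p + 1) p ^ (e - i - 1)`. -/
noncomputable def family (p : ℕ) [Fact p.Prime] {k : Type*} [Field k] [CharP k p] (a : ℕ → k)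
    (e : ℕ) : Ideal (MvPolynomial (Fin 2) k) where
  carrier := {f | X 1 ∣ f ∧ ∀ i, Polynomial.X ^ ((p + 1) * p ^ e) ∣ blow (a i) f ^ p ^ (i + 1)}
  zero_mem' := by
    refine ⟨dvd_zero _, fun i => ?_⟩
    rw [map_zero, zero_pow (pow_ne_zero _ (Fact.out : p.Prime).ne_zero)]
    exact dvd_zero _
  add_mem' := by
    rintro f g ⟨hf, hf'⟩ ⟨hg, hg'⟩
    refine ⟨dvd_add hf hg, fun i => ?_⟩
    have : ExpChar (Polynomial (MvPolynomial (Fin 2) k)) p := ExpChar.prime Fact.out
    rw [map_add, add_pow_expChar_pow]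
    exact dvd_add (hf' i) (hg' i)
  smul_mem' := by
    rintro c f ⟨hf, hf'⟩
    refine ⟨hf.mul_left c, fun i => ?_⟩
    rw [smul_eq_mul, map_mul, mul_pow]
    exact (hf' i).mul_left _

lemma mem_family (a : ℕ → k) (e : ℕ) (f : MvPolynomial (Fin 2) k) :
    f ∈ family p a e ↔
      X 1 ∣ f ∧ ∀ i, Polynomial.X ^ ((p + 1) * p ^ e) ∣ blow (a i) f ^ p ^ (i + 1) := Iff.rfl

lemma pow_comm_aux (a : k) (f : MvPolynomial (Fin 2) k) (m n : ℕ) :
    blow a (f ^ m) ^ n = (blow a f ^ n) ^ m := by
  rw [map_pow, ← pow_mul, ← pow_mul, mul_comm]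

lemma pow_one_aux (c q e n : ℕ) :
    (Polynomial.X : Polynomial (MvPolynomial (Fin 2) k)) ^ (c * q ^ (e + n)) =
      (Polynomial.X ^ (c * q ^ e)) ^ (q ^ n) := by
  rw [← pow_mul, pow_add, mul_assoc]

lemma isPFamily_family (a : ℕ → k) : IsPFamily p (family p a) := by
  intro e
  rw [Ideal.span_le]
  rintro _ ⟨f, ⟨hf, hf'⟩, rfl⟩
  have hpp : p.Prime := Fact.out
  refine ⟨dvd_pow hf hpp.ne_zero, fun i => ?_⟩
  show _ ∣ blow (a i) (f ^ p) ^ p ^ (i + 1)
  rw [pow_comm_aux, pow_one_aux (p + 1) p e 1, pow_one]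
  exact pow_dvd_pow_of_dvd (hf' i) p

lemma isPStable_family (a : ℕ → k) : IsPStable p (family p a) := by
  intro e
  have hpp : p.Prime := Fact.out
  apply Set.Subset.antisymm
  · rintro r ⟨f₀, hf₀⟩
    obtain ⟨h1, h2⟩ := hf₀ f₀ le_rfl
    refine ⟨(X_prime (R := k) (i := (1 : Fin 2))).dvd_of_dvd_pow h1, fun i => ?_⟩
    have h3 := h2 i
    rw [pow_comm_aux, pow_one_aux] at h3
    exact (IsIntegrallyClosed.pow_dvd_pow_iff (pow_ne_zero _ hpp.ne_zero)).1 h3
  · intro r hr
    refine ⟨0, fun f _ => ?_⟩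
    obtain ⟨h1, h2⟩ := hr
    refine ⟨dvd_pow h1 (pow_ne_zero _ hpp.ne_zero), fun i => ?_⟩
    rw [pow_comm_aux, pow_one_aux]
    exact pow_dvd_pow_of_dvd (h2 i) _

/-- `h_J = ∏_{j ∈ J} (x - a_j) ^ N`. -/
noncomputable def clr (a : ℕ → k) (J : Finset ℕ) (N : ℕ) : MvPolynomial (Fin 2) k :=
  ∏ j ∈ J, (X 0 - C (a j)) ^ N

lemma blow_sub (a c : k) : blow a (X 0 - C c) =
    Polynomial.C (C (a - c)) + Polynomial.X * Polynomial.C (X 0) := by
  rw [map_sub, blow_X0, blow_C, C_sub, Polynomial.C_sub]
  ring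

lemma dvd_blow_clr (a : ℕ → k) (J : Finset ℕ) (N : ℕ) {j : ℕ} (hj : j ∈ J) :
    Polynomial.X ^ N ∣ blow (a j) (clr a J N) := by
  have h1 : (X 0 - C (a j) : MvPolynomial (Fin 2) k) ^ N ∣ clr a J N := by
    obtain ⟨J', hJ', rfl⟩ : ∃ J', j ∉ J' ∧ insert j J' = J :=
      ⟨J.erase j, Finset.notMem_erase j J, Finset.insert_erase hj⟩
    rw [clr, Finset.prod_insert hJ']
    exact dvd_mul_right _ _
  refine dvd_trans ?_ (map_dvd (blow (a j)) h1)
  rw [map_pow, blow_sub, sub_self, C_0, Polynomial.C_0, zero_add]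
  exact pow_dvd_pow_of_dvd (dvd_mul_right _ _) N

lemma not_dvd_blow_clr (a : ℕ → k) (ha : Function.Injective a) (J : Finset ℕ) (N : ℕ) {j : ℕ}
    (hj : j ∉ J) : ¬ Polynomial.X ∣ blow (a j) (clr a J N) := by
  intro h
  rw [clr, map_prod] at h
  obtain ⟨i, hi, h1⟩ := (Prime.dvd_finsetProd_iff Polynomial.prime_X _).1 h
  rw [map_pow] at h1
  have h2 := Polynomial.prime_X.dvd_of_dvd_pow h1
  rw [blow_sub, Polynomial.X_dvd_iff] at h2
  simp only [Polynomial.coeff_add, Polynomial.coeff_C_zero, Polynomial.mul_coeff_zero,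
    Polynomial.coeff_X_zero, zero_mul, add_zero] at h2
  rw [C_eq_zero, sub_eq_zero] at h2
  exact hj (ha h2 ▸ hi)

lemma X1_not_dvd_clr (a : ℕ → k) (J : Finset ℕ) (N : ℕ) :
    ¬ (X 1 : MvPolynomial (Fin 2) k) ∣ clr a J N := by
  intro h
  rw [clr] at h
  obtain ⟨i, hi, h1⟩ := (Prime.dvd_finsetProd_iff (X_prime (R := k) (i := (1 : Fin 2))) _).1 h
  obtain ⟨c, hc⟩ := (X_prime (R := k) (i := (1 : Fin 2))).dvd_of_dvd_pow h1
  have h3 := congrArg (eval (![a i + 1, 0] : Fin 2 → k)) hc
  simp at h3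

/-- A criterion for membership. -/
lemma mem_family_of (a : ℕ → k) (d e M u N : ℕ) (hM : e + d ≤ M) (J : Finset ℕ)
    (w : MvPolynomial (Fin 2) k) (hu : 1 ≤ u) (hN : (p + 1) * p ^ (e + d) ≤ N)
    (hJ : ∀ j, j ≤ M → j ∉ J → Polynomial.X ^ ((p + 1) * p ^ (e + d)) ∣
      blow (a j) (X 1 ^ u * w) ^ p ^ (j + 1)) :
    X 1 ^ u * w * clr a J N ^ p ^ d ∈ family p a (e + d) := by
  have hpp : p.Prime := Fact.out
  have hp1 : 1 ≤ p ^ d := Nat.one_le_iff_ne_zero.2 (pow_ne_zero _ hpp.ne_zero)
  refine ⟨((dvd_pow_self _ (by omega)).mul_right _).mul_right _, fun j => ?_⟩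
  rw [map_mul, mul_pow]
  by_cases h1 : j ∈ J
  · apply Dvd.dvd.mul_left
    rw [map_pow, ← pow_mul]
    refine dvd_trans ?_ (pow_dvd_pow_of_dvd (dvd_blow_clr a J N h1) _)
    rw [← pow_mul]
    apply pow_dvd_pow
    refine hN.trans ?_
    apply Nat.le_mul_of_pos_right
    exact Nat.mul_pos hp1 (pow_pos hpp.pos _)
  · by_cases h2 : j ≤ M
    · exact (hJ j h2 h1).mul_right _
    · apply Dvd.dvd.mul_right
      rw [map_mul, mul_pow, map_pow, blow_X1]
      apply Dvd.dvd.mul_right
      rw [← pow_mul, mul_pow]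
      apply Dvd.dvd.mul_right
      apply pow_dvd_pow
      have h3 : p ^ (e + d + 2) ≤ p ^ (j + 1) := Nat.pow_le_pow_right hpp.pos (by omega)
      have h4 : (p + 1) * p ^ (e + d) ≤ p ^ (e + d + 2) := by
        rw [pow_add p (e + d) 2, mul_comm]
        apply Nat.mul_le_mul_left
        nlinarith [hpp.two_le]
      calc (p + 1) * p ^ (e + d) ≤ p ^ (j + 1) := h4.trans h3
        _ ≤ u * p ^ (j + 1) := Nat.le_mul_of_pos_left _ hu

lemma coeff_zero_blow (a : k) (g : MvPolynomial (Fin 2) k) :
    (blow a g).coeff 0 = C (eval ![a, 0] g) := by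
  induction g using MvPolynomial.induction_on with
  | C c => rw [blow_C, Polynomial.coeff_C_zero, eval_C]
  | add f g hf hg => rw [map_add, Polynomial.coeff_add, hf, hg, map_add, C_add]
  | mul_X f i hf =>
    rw [map_mul, Polynomial.mul_coeff_zero, hf, map_mul, C_mul]
    congr 1
    rw [eval_X]
    fin_cases i
    · show (blow a (X 0)).coeff 0 = _
      rw [blow_X0]
      simp
    · show (blow a (X 1)).coeff 0 = _
      rw [blow_X1]
      simp

section Main

variable {d : ℕ} (a : ℕ → k) (φ : CartierMap p d (MvPolynomial (Fin 2) k))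

/-- Step 1: a compatible Cartier map sends `(y)` into `(y)`. -/
lemma step1 (hφ : ∀ e, ∀ r ∈ family p a (e + d), φ.toFun r ∈ family p a e)
    (w : MvPolynomial (Fin 2) k) : X 1 ∣ φ.toFun (X 1 * w) := by
  have h1 := mem_family_of (p := p) a d 0 d 1 ((p + 1) * p ^ (0 + d)) (by omega)
    (Finset.range (d + 1)) w le_rfl le_rfl (by
      intro j hj hj'
      exact absurd (Finset.mem_range.2 (by omega)) hj')
  have h2 := (hφ 0 _ h1).1
  have h3 : (X 1 ^ 1 * w * clr a (Finset.range (d + 1)) ((p + 1) * p ^ (0 + d)) ^ p ^ d :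
      MvPolynomial (Fin 2) k) =
      clr a (Finset.range (d + 1)) ((p + 1) * p ^ (0 + d)) ^ p ^ d * (X 1 * w) := by
    ring
  rw [h3, φ.map_pow_mul] at h2
  rcases (X_prime (R := k) (i := (1 : Fin 2))).dvd_or_dvd h2 with h4 | h4
  · exact absurd h4 (X1_not_dvd_clr a _ _)
  · exact h4

/-- Step 2: `φ ((x - a_i) ^ (q - 1))` vanishes at `(a_i, 0)`. -/
lemma step2 (ha : Function.Injective a)
    (hφ : ∀ e, ∀ r ∈ family p a (e + d), φ.toFun r ∈ family p a e) (i : ℕ) (hd : 1 ≤ d) :
    eval ![a i, 0] (φ.toFun ((X 0 - C (a i)) ^ (p ^ d - 1))) = 0 := by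
  have hpp : p.Prime := Fact.out
  have hq : p ≤ p ^ d := by
    calc p = p ^ 1 := (pow_one p).symm
      _ ≤ p ^ d := Nat.pow_le_pow_right hpp.pos hd
  set w : MvPolynomial (Fin 2) k := (X 0 - C (a i)) ^ (p ^ d - 1) with hw
  have h1 := mem_family_of (p := p) a d i (i + d) (p ^ d) ((p + 1) * p ^ (i + d)) le_rfl
    ((Finset.range (i + d + 1)).erase i) w (hpp.one_lt.le.trans hq) le_rfl (by
      intro j hj hj'
      have hji : j = i := by
        by_contra hne
        exact hj' (Finset.mem_erase.2 ⟨hne, Finset.mem_range.2 (by omega)⟩)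
      subst hji
      rw [map_mul, map_pow, blow_X1, hw, map_pow, blow_sub, sub_self, C_0, Polynomial.C_0,
        zero_add]
      have e1 : ((Polynomial.X * Polynomial.C (X 1)) ^ p ^ d *
          (Polynomial.X * Polynomial.C (X 0)) ^ (p ^ d - 1) :
          Polynomial (MvPolynomial (Fin 2) k)) = Polynomial.X ^ (p ^ d + (p ^ d - 1)) *
          (Polynomial.C (X 1) ^ p ^ d * Polynomial.C (X 0) ^ (p ^ d - 1)) := by
        rw [mul_pow, mul_pow, pow_add]
        ring
      rw [e1, mul_pow]
      apply Dvd.dvd.mul_right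
      rw [← pow_mul]
      apply pow_dvd_pow
      have e2 : (p + 1) * p ^ (j + d) = ((p + 1) * p ^ d) * p ^ j := by
        rw [pow_add]
        ring
      have e3 : (p ^ d + (p ^ d - 1)) * p ^ (j + 1) = ((p ^ d + (p ^ d - 1)) * p) * p ^ j := by
        rw [pow_succ]
        ring
      rw [e2, e3]
      apply Nat.mul_le_mul_right
      have h2 := hpp.two_le
      obtain ⟨t, ht⟩ : ∃ t, p ^ d = t + 1 := ⟨p ^ d - 1, by omega⟩
      rw [ht, Nat.add_sub_cancel]
      rw [ht] at hq
      nlinarith)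
  have h2 := (hφ i _ h1).2 i
  have h3 : (X 1 ^ p ^ d * w * clr a ((Finset.range (i + d + 1)).erase i)
      ((p + 1) * p ^ (i + d)) ^ p ^ d : MvPolynomial (Fin 2) k) =
      (clr a ((Finset.range (i + d + 1)).erase i) ((p + 1) * p ^ (i + d)) * X 1) ^ p ^ d * w := by
    ring
  rw [h3, φ.map_pow_mul, map_mul, map_mul, blow_X1] at h2
  have hB := not_dvd_blow_clr a ha ((Finset.range (i + d + 1)).erase i) ((p + 1) * p ^ (i + d))
    (Finset.notMem_erase i (Finset.range (i + d + 1)))
  have hW := coeff_zero_blow (a i) (φ.toFun w)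
  generalize blow (a i) (clr a ((Finset.range (i + d + 1)).erase i) ((p + 1) * p ^ (i + d))) = B
    at h2 hB
  generalize blow (a i) (φ.toFun w) = W at h2 hW
  have e4 : (p + 1) * p ^ i = p ^ (i + 1) + p ^ i := by
    rw [pow_succ]
    ring
  have e5 : B * (Polynomial.X * Polynomial.C (X 1)) * W =
      Polynomial.X * (B * Polynomial.C (X 1) * W) := by
    ring
  rw [e4, e5, pow_add, mul_pow, mul_dvd_mul_iff_left (pow_ne_zero _ Polynomial.X_ne_zero)] at h2
  have h5 : (Polynomial.X : Polynomial (MvPolynomial (Fin 2) k)) ∣ Polynomial.X ^ p ^ i :=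
    dvd_pow_self _ (pow_ne_zero i hpp.ne_zero)
  have h7 := Polynomial.prime_X.dvd_of_dvd_pow (h5.trans h2)
  rcases Polynomial.prime_X.dvd_or_dvd h7 with h8 | h8
  · rcases Polynomial.prime_X.dvd_or_dvd h8 with h9 | h9
    · exact absurd h9 hB
    · rw [Polynomial.X_dvd_iff, Polynomial.coeff_C_zero] at h9
      exact absurd h9 (X_ne_zero _)
  · rw [Polynomial.X_dvd_iff, hW, C_eq_zero] at h8
    exact h8

/-- Restriction to the line `y = 0`. -/
noncomputable def restr : MvPolynomial (Fin 2) k →ₐ[k] Polynomial k :=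
  aeval ![Polynomial.X, 0]

lemma eval_restr (c : k) (g : MvPolynomial (Fin 2) k) :
    (restr g).eval c = eval ![c, 0] g := by
  induction g using MvPolynomial.induction_on with
  | C u =>
    have : restr (C u : MvPolynomial (Fin 2) k) = Polynomial.C u := restr.commutes u
    rw [this, Polynomial.eval_C, eval_C]
  | add f g hf hg => rw [map_add, Polynomial.eval_add, hf, hg, map_add]
  | mul_X f i hf =>
    rw [map_mul, Polynomial.eval_mul, hf, map_mul]
    congr 1
    rw [eval_X, restr, aeval_X]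
    fin_cases i
    · simp
    · simp

lemma X1_dvd_of_restr {g : MvPolynomial (Fin 2) k} (h : restr g = 0) : X 1 ∣ g := by
  have key : ∀ g : MvPolynomial (Fin 2) k,
      X 1 ∣ g - Polynomial.aeval (X 0 : MvPolynomial (Fin 2) k) (restr g) := by
    intro g
    induction g using MvPolynomial.induction_on with
    | C u =>
      have : restr (C u : MvPolynomial (Fin 2) k) = Polynomial.C u := restr.commutes u
      rw [this, Polynomial.aeval_C, algebraMap_eq, sub_self]
      exact dvd_zero _
    | add f g hf hg =>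
      rw [map_add, map_add, add_sub_add_comm]
      exact dvd_add hf hg
    | mul_X f i hf =>
      rw [map_mul, map_mul]
      have h1 : (X 1 : MvPolynomial (Fin 2) k) ∣ X i -
          Polynomial.aeval (X 0 : MvPolynomial (Fin 2) k) (restr (X i : MvPolynomial (Fin 2) k)) := by
        rw [restr, aeval_X]
        fin_cases i
        · simp
        · simp
      have h2 : f * X i - Polynomial.aeval (X 0 : MvPolynomial (Fin 2) k) (restr f) *
          Polynomial.aeval (X 0 : MvPolynomial (Fin 2) k) (restr (X i : MvPolynomial (Fin 2) k)) =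
          (f - Polynomial.aeval (X 0 : MvPolynomial (Fin 2) k) (restr f)) * X i +
          Polynomial.aeval (X 0 : MvPolynomial (Fin 2) k) (restr f) *
          (X i - Polynomial.aeval (X 0 : MvPolynomial (Fin 2) k)
            (restr (X i : MvPolynomial (Fin 2) k))) := by
        ring
      rw [h2]
      exact dvd_add (hf.mul_right _) (h1.mul_left _)
  have := key g
  rwa [h, map_zero, sub_zero] at this

lemma sum_expand_eq_zero (q : ℕ) (hq : 0 < q) (c : ℕ → Polynomial k)
    (h : ∑ α ∈ Finset.range q, Polynomial.X ^ (q - 1 - α) * Polynomial.expand k q (c α) = 0)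
    (α : ℕ) (hα : α < q) : c α = 0 := by
  ext n
  have h1 := congrArg (fun f => Polynomial.coeff f (q * n + (q - 1 - α))) h
  simp only [Polynomial.finsetSum_coeff, Polynomial.coeff_zero] at h1
  rw [Finset.sum_eq_single α] at h1
  · rw [Polynomial.coeff_X_pow_mul, Polynomial.coeff_expand hq, if_pos (dvd_mul_right q n),
      Nat.mul_div_cancel_left _ hq] at h1
    rw [h1, Polynomial.coeff_zero]
  · intro β hβ hne
    rw [Finset.mem_range] at hβ
    rw [Polynomial.coeff_X_pow_mul']
    split_ifs with h2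
    · rw [Polynomial.coeff_expand hq, if_neg]
      intro h3
      apply hne
      obtain ⟨t, ht⟩ := h3
      have h4 : q * n + (q - 1 - α) = q * t + (q - 1 - β) := by omega
      have h5 : (q * n + (q - 1 - α)) % q = (q * t + (q - 1 - β)) % q := by rw [h4]
      rw [Nat.mul_add_mod, Nat.mul_add_mod, Nat.mod_eq_of_lt (by omega),
        Nat.mod_eq_of_lt (by omega)] at h5
      omega
    · rfl
  · intro h2
    exact absurd (Finset.mem_range.2 hα) h2

/-- Step 3: `φ (x ^ α) ∈ (y)` for `α < q`. -/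
lemma step3 [PerfectRing k p] (ha : Function.Injective a)
    (hφ : ∀ e, ∀ r ∈ family p a (e + d), φ.toFun r ∈ family p a e) (hd : 1 ≤ d)
    (α : ℕ) (hα : α < p ^ d) : X 1 ∣ φ.toFun (X 0 ^ α) := by
  classical
  have hpp : p.Prime := Fact.out
  have hq0 : 0 < p ^ d := pow_pos hpp.pos d
  have hexp : ExpChar (MvPolynomial (Fin 2) k) p := ExpChar.prime Fact.out
  apply X1_dvd_of_restr
  refine sum_expand_eq_zero (p ^ d) hq0 (fun α => restr (φ.toFun (X 0 ^ α))) ?_ α hα
  let b : ℕ → k := fun i => (iterateFrobeniusEquiv k p d).symm (a i)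
  have hb : ∀ i, b i ^ p ^ d = a i := by
    intro i
    rw [← iterateFrobeniusEquiv_def, RingEquiv.apply_symm_apply]
  have hbinj : Function.Injective b := fun i j hij => ha (by
    have : b i = b j := hij
    rw [← hb i, ← hb j, this])
  apply Polynomial.eq_zero_of_infinite_isRoot
  refine Set.Infinite.mono ?_ (Set.infinite_range_of_injective hbinj)
  rintro _ ⟨i, rfl⟩
  rw [Set.mem_ofPred_eq, Polynomial.IsRoot.def, Polynomial.eval_finsetSum]
  have h1 := step2 a φ ha hφ i hd
  have h2 : ((X 0 - C (a i)) ^ (p ^ d - 1) : MvPolynomial (Fin 2) k) =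
      ∑ α ∈ Finset.range (p ^ d), C (b i ^ (p ^ d - 1 - α)) ^ p ^ d * X 0 ^ α := by
    have hne : (X 0 - C (a i) : MvPolynomial (Fin 2) k) ≠ 0 := by
      intro h
      have h3 := congrArg (eval (![a i + 1, 0] : Fin 2 → k)) h
      simp at h3
    apply mul_right_cancel₀ hne
    rw [← pow_succ, Nat.sub_add_cancel hq0, sub_pow_expChar_pow, ← geom_sum₂_mul]
    congr 1
    refine Finset.sum_congr rfl fun α _ => ?_
    have e1 : C (b i ^ (p ^ d - 1 - α)) ^ p ^ d =
        (C (a i) ^ (p ^ d - 1 - α) : MvPolynomial (Fin 2) k) := by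
      rw [← C_pow, ← C_pow, ← pow_mul, mul_comm (p ^ d - 1 - α), pow_mul, hb]
    rw [e1, mul_comm]
  rw [h2, map_sum, map_sum] at h1
  rw [← h1]
  refine Finset.sum_congr rfl fun α _ => ?_
  rw [φ.map_pow_mul, Polynomial.eval_mul, Polynomial.eval_pow, Polynomial.eval_X,
    Polynomial.expand_eval, hb, eval_restr, map_mul, eval_C]

/-- A Cartier map compatible with the family maps `R` into `(y)`. -/
lemma step4 [PerfectRing k p] (ha : Function.Injective a)
    (hφ : ∀ e, ∀ r ∈ family p a (e + d), φ.toFun r ∈ family p a e) (hd : 1 ≤ d)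
    (f : MvPolynomial (Fin 2) k) : X 1 ∣ φ.toFun f := by
  have hpp : p.Prime := Fact.out
  induction f using MvPolynomial.induction_on' with
  | monomial m c =>
    by_cases h : m 1 = 0
    · have h1 : (monomial m c : MvPolynomial (Fin 2) k) =
          (C ((iterateFrobeniusEquiv k p d).symm c) * X 0 ^ (m 0 / p ^ d)) ^ p ^ d *
            X 0 ^ (m 0 % p ^ d) := by
        rw [mul_pow, ← C_pow, ← iterateFrobeniusEquiv_def, RingEquiv.apply_symm_apply, ← pow_mul,
          mul_assoc, ← pow_add, mul_comm (m 0 / p ^ d), Nat.div_add_mod, X_pow_eq_monomial,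
          C_mul_monomial, mul_one]
        have e1 : m = Finsupp.single 0 (m 0) := by
          ext i
          fin_cases i
          · simp
          · simpa using h
        rw [← e1]
      rw [h1, φ.map_pow_mul]
      exact (step3 a φ ha hφ hd _ (Nat.mod_lt _ (pow_pos hpp.pos d))).mul_left _
    · have h1 : (monomial m c : MvPolynomial (Fin 2) k) =
          X 1 * monomial (m - Finsupp.single 1 1) c := by
        rw [X, monomial_mul, one_mul, add_comm, tsub_add_cancel_of_le]
        rw [Finsupp.single_le_iff]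
        omega
      rw [h1]
      exact step1 a φ hφ _
  | add f g hf hg =>
    rw [map_add]
    exact dvd_add hf hg

lemma not_propertyS [PerfectRing k p] (ha : Function.Injective a) :
    ¬ PropertyS p (family p a) := by
  rintro ⟨d, hd, φ, hsurj, hφ⟩
  obtain ⟨f, hf⟩ := hsurj 1
  have h1 := step4 a φ ha hφ hd f
  rw [hf] at h1
  exact (X_prime (R := k) (i := (1 : Fin 2))).not_isUnit (isUnit_of_dvd_one h1)

end Main

end Family

/-- Let `k` be an infinite perfect field of characteristic `p > 0`. The ring `k[x, y]` is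
Noetherian, of characteristic `p`, `F`-finite and strongly `F`-regular, and it has a `p`-stable
`p`-family without property (S). -/
theorem result (p : ℕ) [Fact p.Prime] (k : Type*) [Field k] [CharP k p] [PerfectRing k p]
    [Infinite k] :
    IsNoetherianRing (MvPolynomial (Fin 2) k) ∧ CharP (MvPolynomial (Fin 2) k) p ∧
    (frobenius (MvPolynomial (Fin 2) k) p).Finite ∧ StronglyFRegular p (MvPolynomial (Fin 2) k) ∧
    ∃ b : ℕ → Ideal (MvPolynomial (Fin 2) k),
      IsPFamily p b ∧ IsPStable p b ∧ ¬ PropertyS p b := by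
  refine ⟨inferInstance, inferInstance, frobenius_finite, stronglyFRegular,
    family p (Infinite.natEmbedding k), isPFamily_family _, isPStable_family _, ?_⟩
  exact not_propertyS _ (Infinite.natEmbedding k).injective

end Pool.Agent.Results.MP_30687b_ag.StableWithoutS
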